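import Mathlib

/-!
Roots of specialisations reduce to roots modulo a prime (helper609).
-/

set_option autoImplicit false

namespace Pool.Agent.N609.TS

open Polynomial

/-- evaluation -/
noncomputable def ev {S : Type} [CommRing S] (t : S) : ℤ[X] →+* S :=
  eval₂RingHom (Int.castRingHom S) t

theorem ev_X {S : Type} [CommRing S] (t : S) : ev t X = t := by
  show eval₂ _ _ _ = _
  rw [eval₂_X]

theorem comp_ev {S S' : Type} [CommRing S] [CommRing S'] (φ : S →+* S') (t : S) :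
    φ.comp (ev t) = ev (φ t) := by
  refine Polynomial.ringHom_ext' (Subsingleton.elim _ _) ?_
  rw [RingHom.comp_apply, ev_X, ev_X]

theorem unit_of_not_dvd {q : ℕ} [Fact q.Prime] {w : ℤ} (hw : ¬ (q : ℤ) ∣ w) :
    IsUnit ((w : ℤ) : ℤ_[q]) := by
  rw [PadicInt.isUnit_iff]
  by_contra h
  apply hw
  rw [← PadicInt.norm_int_lt_one_iff_dvd]
  exact lt_of_le_of_ne (PadicInt.norm_le_one _) h

/-- A root of the specialisation of a monic polynomial at `j = J / D`, `q ∤ D`, gives a root modulo `q`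
of the specialisation at an integer `a ≡ j`. -/
theorem root_mod {q : ℕ} [Fact q.Prime] {F : ℤ[X][X]} (hF : F.Monic) {a J D : ℤ} {j y : ℚ}
    (hD : ¬ (q : ℤ) ∣ D) (hj : j * D = J) (hja : (J : ZMod q) = a * D)
    (hy : (F.map (ev j)).eval y = 0) :
    ∃ z : ZMod q, ((F.map (evalRingHom a)).map (Int.castRingHom (ZMod q))).eval z = 0 := by
  obtain ⟨D', hD'⟩ := (unit_of_not_dvd (q := q) hD).exists_right_inv
  set jq : ℤ_[q] := (J : ℤ_[q]) * D' with hjq
  have hjq1 : jq * (D : ℤ_[q]) = J := by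
    rw [hjq, mul_assoc, mul_comm D', hD', mul_one]
  have hDQ : ((D : ℤ) : ℚ_[q]) ≠ 0 := by
    intro h
    apply hD
    have : D = 0 := by exact_mod_cast h
    rw [this]
    exact dvd_zero _
  have hjq2 : ((jq : ℤ_[q]) : ℚ_[q]) = ((j : ℚ) : ℚ_[q]) := by
    apply mul_right_cancel₀ hDQ
    have h1 := congrArg (fun z : ℤ_[q] => (z : ℚ_[q])) hjq1
    have h2 := congrArg (fun z : ℚ => ((z : ℚ) : ℚ_[q])) hj
    simp only [PadicInt.coe_mul, PadicInt.coe_intCast] at h1
    simp only [Rat.cast_mul, Rat.cast_intCast] at h2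
    rw [h1, h2]
  have e1 : (PadicInt.Coe.ringHom : ℤ_[q] →+* ℚ_[q]).comp (ev jq) = ev ((j : ℚ) : ℚ_[q]) := by
    rw [comp_ev]
    congr 1
  have e2 : (Rat.castHom ℚ_[q]).comp (ev j) = ev ((j : ℚ) : ℚ_[q]) := by
    rw [comp_ev]
    rfl
  have hmon : (F.map (ev jq)).Monic := hF.map _
  have hyQ : eval₂ (algebraMap ℤ_[q] ℚ_[q]) ((y : ℚ) : ℚ_[q]) (F.map (ev jq)) = 0 := by
    have h1 := congrArg (Rat.castHom ℚ_[q]) hy
    rw [map_zero, ← eval₂_at_apply, eval₂_map, e2] at h1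
    have h2 : (algebraMap ℤ_[q] ℚ_[q]) = PadicInt.Coe.ringHom := rfl
    rw [h2, eval₂_map, e1]
    exact h1
  obtain ⟨yq, hyq⟩ := IsIntegrallyClosed.isIntegral_iff.1
    (⟨F.map (ev jq), hmon, hyQ⟩ : IsIntegral ℤ_[q] ((y : ℚ) : ℚ_[q]))
  have hroot : (F.map (ev jq)).eval yq = 0 := by
    apply FaithfulSMul.algebraMap_injective ℤ_[q] ℚ_[q]
    rw [map_zero, ← hyQ, ← hyq, ← eval₂_at_apply]
  have hmod : (PadicInt.toZMod jq : ZMod q) = (a : ZMod q) := by
    have h1 := congrArg (PadicInt.toZMod (p := q)) hjq1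
    rw [map_mul, map_intCast, map_intCast, hja] at h1
    have hD0 : ((D : ℤ) : ZMod q) ≠ 0 := by
      intro h
      exact hD ((ZMod.intCast_zmod_eq_zero_iff_dvd D q).1 h)
    exact mul_right_cancel₀ hD0 h1
  refine ⟨PadicInt.toZMod yq, ?_⟩
  have h1 := congrArg (PadicInt.toZMod (p := q)) hroot
  rw [map_zero, ← eval₂_at_apply, eval₂_map, comp_ev, hmod] at h1
  rw [eval_map, eval₂_map]
  have e3 : (Int.castRingHom (ZMod q)).comp (evalRingHom a) = ev (a : ZMod q) := by
    refine Polynomial.ringHom_ext' (Subsingleton.elim _ _) ?_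
    rw [RingHom.comp_apply, ev_X, coe_evalRingHom, eval_X, Int.coe_castRingHom]
  rw [e3]
  exact h1

/-- Integral specialisations of a polynomial which is irreducible over `ℚ(t)`. -/
theorem irr_of {F : ℤ[X][X]} (hF : F.Monic)
    (hirr : Irreducible (F.map (algebraMap ℤ[X] (FractionRing ℤ[X])))) :
    Irreducible (F.map (mapRingHom (Int.castRingHom ℚ))) := by
  have hc : CharZero (FractionRing ℤ[X]) := IsFractionRing.charZero ℤ[X]
  set ψ : ℚ[X] →+* FractionRing ℤ[X] :=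
    eval₂RingHom (algebraMap ℚ (FractionRing ℤ[X])) (algebraMap ℤ[X] (FractionRing ℤ[X]) X) with hψ
  have e : ψ.comp (mapRingHom (Int.castRingHom ℚ)) = algebraMap ℤ[X] (FractionRing ℤ[X]) := by
    refine Polynomial.ringHom_ext' (Subsingleton.elim _ _) ?_
    rw [RingHom.comp_apply, coe_mapRingHom, map_X, hψ, coe_eval₂RingHom, eval₂_X]
  refine Monic.irreducible_of_irreducible_map ψ _ (hF.map _) ?_
  rw [Polynomial.map_map, e]
  exact hirr

end Pool.Agent.N609.TS
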