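import Pool.Agent.Y701.CH.Dens

/-!
Irreducible polynomials have no roots modulo a positive proportion of the primes (helper609).
-/

set_option autoImplicit false

namespace Pool.Agent.N609.TS

open Polynomial NumberField Pool.Agent.Y701.CH Pool.Agent.W401.Cheb Pool.Agent.TH888.B1

/-- a transitive finite group on at least two points has a derangement -/
theorem exists_derangement {G Ω : Type} [Group G] [Finite G] [MulAction G Ω] [Finite Ω]
    [MulAction.IsPretransitive G Ω] [Nontrivial Ω] : ∃ g : G, ∀ ω : Ω, g • ω ≠ ω := by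
  classical
  have := Fintype.ofFinite G
  have := Fintype.ofFinite Ω
  by_contra hcon
  push Not at hcon
  have h := MulAction.sum_card_fixedBy_eq_card_orbits_mul_card_group G Ω
  have h1 : Fintype.card (Quotient (MulAction.orbitRel G Ω)) ≤ 1 := by
    rw [Fintype.card_le_one_iff_subsingleton]
    refine ⟨fun a b => ?_⟩
    induction a using Quotient.inductionOn
    induction b using Quotient.inductionOn
    rename_i a b
    obtain ⟨g, hg⟩ := MulAction.exists_smul_eq G b a
    exact Quotient.sound ⟨g, hg⟩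
  have h2 : ∀ g : G, 1 ≤ Fintype.card (MulAction.fixedBy Ω g) := by
    intro g
    obtain ⟨ω, hω⟩ := hcon g
    exact Fintype.card_pos_iff.2 ⟨⟨ω, hω⟩⟩
  have h3 : 2 ≤ Fintype.card (MulAction.fixedBy Ω (1 : G)) := by
    obtain ⟨a, b, hab⟩ := exists_pair_ne Ω
    have : Nontrivial (MulAction.fixedBy Ω (1 : G)) :=
      ⟨⟨⟨a, one_smul G a⟩, ⟨b, one_smul G b⟩, fun h => hab (congrArg Subtype.val h)⟩⟩
    exact Fintype.one_lt_card
  have h4 : Fintype.card G < ∑ a : G, Fintype.card (MulAction.fixedBy Ω a) := by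
    calc Fintype.card G = ∑ _a : G, 1 := by simp
      _ < _ := Finset.sum_lt_sum (fun g _ => h2 g) ⟨1, Finset.mem_univ _, h3⟩
  rw [h] at h4
  nlinarith [Fintype.card_pos (α := G)]

/-- An irreducible polynomial of degree at least two has no roots modulo a positive proportion of the
primes. -/
theorem irr_density (H : ℤ[X]) (hi : Irreducible (H.map (Int.castRingHom ℚ)))
    (hd : 2 ≤ H.natDegree) :
    PosDensity {ℓ : ℕ | ℓ.Prime ∧ ∀ z : ZMod ℓ, (H.map (Int.castRingHom (ZMod ℓ))).eval z ≠ 0} := by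
  classical
  obtain ⟨F, hF⟩ : ∃ F : ℚ[X], F = H.map (Int.castRingHom ℚ) := ⟨_, rfl⟩
  rw [← hF] at hi
  have hF0 : F ≠ 0 := hi.ne_zero
  have hH : H ≠ 0 := by
    rintro rfl
    apply hF0
    rw [hF, Polynomial.map_zero]
  have hFd : F.natDegree = H.natDegree := by
    rw [hF, natDegree_map_eq_of_injective (RingHom.injective_int _)]
  have e0 : ∀ (M : Type) [Field M] [Algebra ℚ M],
      F.map (algebraMap ℚ M) = H.map (algebraMap ℤ M) := by
    intro M _ _
    rw [hF, Polynomial.map_map]
    congr 1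
    exact RingHom.ext_int _ _
  have hS : IsSplittingField ℚ F.SplittingField F := IsSplittingField.splittingField F
  have h1 : FiniteDimensional ℚ F.SplittingField := IsSplittingField.finiteDimensional _ F
  have h2 : CharZero F.SplittingField :=
    charZero_of_injective_algebraMap (algebraMap ℚ F.SplittingField).injective
  have hnf : NumberField F.SplittingField := ⟨⟩
  have hN : Normal ℚ F.SplittingField := Normal.of_isSplittingField F
  have hG : IsGalois ℚ F.SplittingField := ⟨⟩
  set L := F.SplittingField with hL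
  have hsplit : (F.map (algebraMap ℚ L)).Splits := SplittingField.splits F
  have e1 : F.map (algebraMap ℚ L) = H.map (algebraMap ℤ L) := e0 L
  have hs1 : (H.map (algebraMap ℤ L)).Splits := by
    rw [← e1]
    exact hsplit
  have haev : ∀ α : L, aeval α H = 0 ↔ aeval α F = 0 := by
    intro α
    rw [aeval_def, ← eval_map, ← e1, eval_map_algebraMap]
  -- one root
  obtain ⟨α₀, hα₀⟩ : ∃ α₀ : L, aeval α₀ F = 0 := by
    have hdeg : (F.map (algebraMap ℚ L)).degree ≠ 0 := by
      rw [degree_map]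
      intro h
      rw [degree_eq_natDegree hF0] at h
      have : F.natDegree = 0 := by exact_mod_cast h
      omega
    obtain ⟨s, hs⟩ := hsplit.exists_eval_eq_zero hdeg
    exact ⟨s, by rw [← hs, eval_map_algebraMap]⟩
  have hmin : ∀ α : L, aeval α F = 0 → minpoly ℚ α = F * C F.leadingCoeff⁻¹ := by
    intro α hα
    exact (minpoly.eq_of_irreducible hi hα).symm
  let Ω := MulAction.orbit Gal(L/ℚ) α₀
  have hΩ : ∀ α : L, aeval α F = 0 → α ∈ Ω := by
    intro α hα
    have hc : IsConjRoot ℚ α α₀ := by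
      rw [isConjRoot_def, hmin α hα, hmin α₀ hα₀]
    obtain ⟨σ, hσ⟩ := isConjRoot_iff_exists_algEquiv.1 hc
    exact ⟨σ, hσ⟩
  have hfinΩ : Finite Ω := Set.finite_range _
  have hnt : Nontrivial Ω := by
    by_contra hnt
    rw [not_nontrivial_iff_subsingleton] at hnt
    have hfix : ∀ σ : Gal(L/ℚ), σ α₀ = α₀ := by
      intro σ
      have h5 : (⟨σ • α₀, MulAction.mem_orbit _ _⟩ : Ω) = ⟨α₀, MulAction.mem_orbit_self _⟩ :=
        Subsingleton.elim _ _
      exact congrArg Subtype.val h5
    have h6 : α₀ ∈ Set.range (algebraMap ℚ L) := by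
      rw [IsGalois.mem_range_algebraMap_iff_fixed]
      exact hfix
    obtain ⟨c, hc⟩ := h6
    have h7 : minpoly ℚ α₀ = X - C c := by
      rw [← hc]
      exact minpoly.eq_X_sub_C _ _
    have h8 := hmin α₀ hα₀
    have h9 := congrArg natDegree h8
    rw [h7, natDegree_X_sub_C, natDegree_mul_C (inv_ne_zero (leadingCoeff_ne_zero.2 hF0))] at h9
    omega
  obtain ⟨σ, hσ⟩ := exists_derangement (G := Gal(L/ℚ)) (Ω := Ω)
  have hfix : ∀ α : L, aeval α H = 0 → σ α ≠ α := by
    intro α hα hfα
    apply hσ ⟨α, hΩ α ((haev α).1 hα)⟩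
    exact Subtype.ext hfα
  obtain ⟨D, hD0, hD⟩ := no_root σ H hH hs1 hfix
  have hfin : {p : ℕ | p ∣ D}.Finite := by
    apply (Set.finite_Iic D).subset
    intro p hp
    exact Nat.le_of_dvd (Nat.pos_of_ne_zero hD0) hp
  refine ((frob_density L σ).diff hfin).mono ?_
  rintro ℓ ⟨hx, hℓ⟩
  have hprime := xp_prime hx
  have : Fact ℓ.Prime := ⟨hprime⟩
  obtain ⟨φ, hφ⟩ := exists_hom σ hprime hx
  exact ⟨hprime, hD ℓ φ hφ hℓ⟩

end Pool.Agent.N609.TS
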